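import Pool.Agent.Helper83.CB.Defs2

/-!
# PR: equivariant projection onto the Lie algebra
-/

open Filter Topology MeasureTheory

namespace Pool.Agent.Helper83.CB

theorem pr_smul_left {n : ℕ} (c : ℝ) (v w : E n) :
    (inner ℂ (c • v) w : ℂ).re = c * (inner ℂ v w : ℂ).re := by
  rw [RCLike.real_smul_eq_coe_smul (K := ℂ) c v, inner_smul_left]
  simp

theorem pr_smul_right {n : ℕ} (c : ℝ) (v w : E n) :
    (inner ℂ v (c • w) : ℂ).re = c * (inner ℂ v w : ℂ).re := by
  rw [RCLike.real_smul_eq_coe_smul (K := ℂ) c w, inner_smul_right]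
  simp

/-- the real Hilbert-Schmidt product -/
noncomputable def prB (n : ℕ) : LinearMap.BilinForm ℝ (M n) :=
  LinearMap.mk₂ ℝ (fun X Y => ∑ i : Fin n, (inner ℂ (X (EuclideanSpace.basisFun (Fin n) ℂ i))
      (Y (EuclideanSpace.basisFun (Fin n) ℂ i)) : ℂ).re)
    (fun X X' Y => by
      simp only [add_apply, inner_add_left, Complex.add_re, Finset.sum_add_distrib])
    (fun c X Y => by
      simp only [smul_apply, smul_eq_mul, Finset.mul_sum, pr_smul_left])
    (fun X Y Y' => by
      simp only [add_apply, inner_add_right, Complex.add_re, Finset.sum_add_distrib])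
    (fun c X Y => by
      simp only [smul_apply, smul_eq_mul, Finset.mul_sum, pr_smul_right])

theorem prB_apply {n : ℕ} (X Y : M n) : prB n X Y =
    ∑ i : Fin n, (inner ℂ (X (EuclideanSpace.basisFun (Fin n) ℂ i))
      (Y (EuclideanSpace.basisFun (Fin n) ℂ i)) : ℂ).re := rfl

theorem prB_trace {n : ℕ} (X Y : M n) : prB n X Y =
    (LinearMap.trace ℂ (E n) (star X * Y : M n).toLinearMap).re := by
  rw [prB_apply, LinearMap.trace_eq_sum_inner _ (EuclideanSpace.basisFun (Fin n) ℂ)]
  rw [Complex.re_sum]
  refine Finset.sum_congr rfl (fun i _ => ?_)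
  congr 1
  change _ = inner ℂ _ ((star X) (Y _))
  rw [ContinuousLinearMap.star_eq_adjoint, ContinuousLinearMap.adjoint_inner_right]

theorem prB_symm {n : ℕ} (X Y : M n) : prB n X Y = prB n Y X := by
  rw [prB_apply, prB_apply]
  refine Finset.sum_congr rfl (fun i _ => ?_)
  rw [← inner_conj_symm, Complex.conj_re]

theorem prB_pos {n : ℕ} (X : M n) (h : prB n X X = 0) : X = 0 := by
  rw [prB_apply] at h
  have h1 : ∀ i : Fin n, (inner ℂ (X (EuclideanSpace.basisFun (Fin n) ℂ i))
      (X (EuclideanSpace.basisFun (Fin n) ℂ i))).re =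
      ‖X (EuclideanSpace.basisFun (Fin n) ℂ i)‖ ^ 2 := by
    intro i
    rw [inner_self_eq_norm_sq_to_K]
    norm_cast
  simp only [h1] at h
  rw [Finset.sum_eq_zero_iff_of_nonneg (fun i _ => sq_nonneg _)] at h
  have h2 : X.toLinearMap = (0 : M n).toLinearMap := by
    refine (EuclideanSpace.basisFun (Fin n) ℂ).toBasis.ext (fun i => ?_)
    have h3 := h i (Finset.mem_univ i)
    rw [sq_eq_zero_iff, norm_eq_zero] at h3
    simpa using h3
  exact ContinuousLinearMap.coe_injective h2

theorem prB_conj {n : ℕ} {g : M n} (hg : g * star g = 1) (X Y : M n) :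
    prB n (star g * X * g) (star g * Y * g) = prB n X Y := by
  rw [prB_trace, prB_trace]
  have h1 : star (star g * X * g) * (star g * Y * g) = star g * (star X * Y * g) := by
    rw [star_mul, star_mul, star_star]
    calc star g * (star X * g) * (star g * Y * g) = star g * star X * (g * star g) * Y * g := by
          simp only [mul_assoc]
      _ = _ := by
          rw [hg, mul_one]
          simp only [mul_assoc]
  have h2 : LinearMap.trace ℂ (E n) (star g * (star X * Y * g) : M n).toLinearMap =
      LinearMap.trace ℂ (E n) ((star X * Y * g) * star g : M n).toLinearMap := by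
    change LinearMap.trace ℂ (E n) ((star g : M n).toLinearMap * (star X * Y * g : M n).toLinearMap)
      = LinearMap.trace ℂ (E n) ((star X * Y * g : M n).toLinearMap * (star g : M n).toLinearMap)
    exact LinearMap.trace_mul_comm ℂ _ _
  rw [h1, h2, mul_assoc, hg, mul_one]

theorem st_PR (hGRP : ST_GRP) : ST_PR := by
  intro n N0 hN0 hU k hk
  obtain ⟨_, _, _, hstar⟩ := hGRP n N0 hN0 hU
  have hrefl : (prB n).IsRefl := fun X Y h => by rw [prB_symm]; exact h
  have hdisj : Disjoint k ((prB n).orthogonal k) := by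
    rw [Submodule.disjoint_def]
    intro X hX hX'
    exact prB_pos X (hX' X hX)
  have hc : IsCompl k ((prB n).orthogonal k) :=
    (LinearMap.BilinForm.isCompl_orthogonal_iff_disjoint hrefl).2 hdisj
  have hconjk : ∀ g ∈ PP (n := n) (m := n) N0 N0, ∀ X ∈ k, star g * X * g ∈ k := by
    intro g hg X hX
    have := hk.ad (star g) (hstar g hg).1 X hX
    rwa [star_star] at this
  have hconjo : ∀ g ∈ PP (n := n) (m := n) N0 N0, ∀ X ∈ (prB n).orthogonal k,
      star g * X * g ∈ (prB n).orthogonal k := by
    intro g hg X hX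
    rw [LinearMap.BilinForm.mem_orthogonal_iff] at hX ⊢
    intro Y hY
    have h1 : Y = star g * (g * Y * star g) * g := by
      have := (hstar g hg).2.1
      calc Y = (star g * g) * Y * (star g * g) := by rw [this, one_mul, mul_one]
        _ = _ := by simp only [mul_assoc]
    have h2 := hX (g * Y * star g) (hk.ad g hg Y hY)
    change prB n Y (star g * X * g) = 0
    rw [h1, prB_conj (hstar g hg).2.2]
    exact h2
  refine ⟨k.projection _ hc, fun X => Submodule.projection_apply_mem hc X,
    fun X hX => Submodule.projection_apply_of_mem_left hc hX, fun g hg X => ?_⟩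
  obtain ⟨P, hP⟩ : ∃ P, P = k.projection _ hc X := ⟨_, rfl⟩
  have hPk : P ∈ k := hP ▸ Submodule.projection_apply_mem hc X
  have hXP : X - P ∈ (prB n).orthogonal k := by
    rw [← Submodule.projection_apply_eq_zero_iff hc, map_sub,
      Submodule.projection_apply_of_mem_left hc hPk, hP, sub_self]
  have h1 : star g * X * g = star g * P * g + star g * (X - P) * g := by
    rw [mul_sub, sub_mul]
    abel
  rw [h1, map_add, Submodule.projection_apply_of_mem_left hc (hconjk g hg P hPk),
    Submodule.projection_apply_of_mem_right hc (hconjo g hg _ hXP), add_zero, hP]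

end Pool.Agent.Helper83.CB
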